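import Pool.Agent.Y223.G.Stm6

/-!
# Project G: assembly of the theorem on Weil restrictions along arbitrary finite extensions
-/

set_option autoImplicit false

namespace Pool.Agent.Y232.G6

open Pool.Agent.Y223.G

section aux

/-- an element outside all but one of a family which generates the unit ideal is a unit of the
valuation ring -/
lemma exists_inv_mem {k Y : Type} [CommRing k] [Field Y] [Algebra k Y] {β : Type} (o : β → k)
    (hspan : Ideal.span (Set.range o) = ⊤) (V : ValuationSubring Y)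
    (hV : ∀ c : k, algebraMap k Y c ∈ V) : ∃ b, (algebraMap k Y (o b))⁻¹ ∈ V := by
  let f : k →+* V := (algebraMap k Y).codRestrict V.toSubring hV
  by_contra hcon
  push Not at hcon
  have h1 : Ideal.span (Set.range o) ≤ (IsLocalRing.maximalIdeal V).comap f := by
    rw [Ideal.span_le]
    rintro _ ⟨b, rfl⟩
    change f (o b) ∈ IsLocalRing.maximalIdeal V
    rw [IsLocalRing.mem_maximalIdeal]
    intro hu
    apply hcon b
    obtain ⟨u, hu⟩ := hu
    have h2 : ((u⁻¹ : Vˣ) : V) * (u : V) = 1 := u.inv_mul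
    have h3 : (((u⁻¹ : Vˣ) : V) : Y) * algebraMap k Y (o b) = 1 := by
      have h4 := congrArg (fun x : V => (x : Y)) h2
      rw [hu] at h4
      exact h4
    have h5 : (algebraMap k Y (o b))⁻¹ = (((u⁻¹ : Vˣ) : V) : Y) :=
      (eq_inv_of_mul_eq_one_left h3).symm
    rw [h5]
    exact ((u⁻¹ : Vˣ) : V).2
  rw [hspan, top_le_iff] at h1
  exact (Ideal.comap_ne_top f (IsLocalRing.maximalIdeal.isMaximal V).ne_top) h1

section

variable {k K K' : Type} [CommRing k] [Field K] [Algebra k K] [Field K'] [Algebra k K']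
  (ι : K' →ₐ[k] K)

/-- the map on polynomials -/
noncomputable def Ph : LP K' →ₐ[k] LP K := AddMonoidAlgebra.mapAlgHom (R := k) ℤ ι

lemma Ph_hm (d : ℤ) (a : K') : Ph ι (hm d a) = hm d (ι a) :=
  AddMonoidAlgebra.mapAlgHom_single _ _ _

variable {ι}

lemma mem_res {R : Subalgebra k (LP K)} {f : LP K'} : f ∈ res ι R ↔ Ph ι f ∈ R := Iff.rfl

end

/-- the product of a compatible family is invariant -/
lemma prod_inv {k K G Ω : Type} [CommRing k] [Field K] [Algebra k K] [Group G] [MulAction G Ω]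
    [Fintype Ω] (ρ : G →* (K ≃ₐ[k] K)) (Φ : Ω → K) (h : ∀ g ω, ρ g (Φ ω) = Φ (g • ω)) (g : G) :
    ρ g (∏ ω, Φ ω) = ∏ ω, Φ ω := by
  rw [map_prod]
  simp only [h]
  exact Equiv.prod_comp (MulAction.toPerm g) Φ

end aux

/-- **Weil restrictions along arbitrary finite extensions.** -/
theorem t_WEILG : S_ATLAS → S_MODEL → S_HASM → S_RAMG → S_GCHG → S_GLA1 → S_GLA2 → S_GVAG →
    S_GFRG → S_GMOG → S_WEILG := by
  intro hATLAS hMODEL hHASM hRAMG hGCHG hGLA1 hGLA2 hGVAG hGFRG hGMOG k O M Y K G Ω _ _ _ _ _ _ _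
    _ _ _ _ _ _ _ _ _ _ _ _ _ ι ρ T m z hyp M₀ hM₀ P hP
  classical
  have hinjk : Function.Injective (algebraMap k K) := hyp.injk
  have hιk : ∀ c : k, ι (algebraMap k Y c) = algebraMap k K c := fun c => ι.commutes c
  have hinjY : Function.Injective (algebraMap k Y) := by
    intro a b hab
    apply hinjk
    rw [← hιk, ← hιk, hab]
  obtain ⟨β, _, _, o, ho, hspan, hb⟩ := hRAMG k O K G ρ T hyp.toGB
  choose dd Tb N hN 𝔔 p l τ hL hg hor using hb
  obtain ⟨d, S, hd, hSfin, hS, hval⟩ := hGVAG k O M Y K G Ω ι ρ T m z hyp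
  have hp : ∀ b i, 0 < p b i := by
    intro b i
    rcases (hL b).ty i with ⟨h1, -⟩ | ⟨h1, -⟩
    · rw [h1]
      exact one_pos
    · exact h1.pp.pos
  have hoK : ∀ b, algebraMap k K (o b) ≠ 0 := by
    intro b h
    apply ho b
    apply hinjk
    rw [h, map_zero]
  have hfinS : Finite S := hSfin
  -- the functions
  have hh : ∀ a : S × β, ∃ y : Y, ι y = (∏ ω, (a.1 : Ω → K) ω) * algebraMap k K (o a.2) := by
    intro a
    apply (hyp.fixK _).1
    intro g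
    have e := prod_inv ρ (a.1 : Ω → K) (hS a.1 a.1.2).eqv g
    rw [map_mul, e, (ρ g).commutes]
  choose h hιh using hh
  have hprod0 : ∀ a : S × β, (∏ ω, (a.1 : Ω → K) ω) ≠ 0 := fun a =>
    Finset.prod_ne_zero_iff.2 fun ω _ => (hS a.1 a.1.2).ne ω
  have hh0 : ∀ a, h a ≠ 0 := by
    intro a h0
    have h1 := hιh a
    rw [h0, map_zero] at h1
    exact mul_ne_zero (hprod0 a) (hoK a.2) h1.symm
  have hquot : ∀ a a' : S × β, ι (h a' / h a) =
      (∏ ω, ((a'.1 : Ω → K) ω / (a.1 : Ω → K) ω)) *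
        (algebraMap k K (o a'.2) / algebraMap k K (o a.2)) := by
    intro a a'
    rw [map_div₀, hιh, hιh, mul_div_mul_comm, ← Finset.prod_div_distrib]
  -- change of the base
  have hbase : ∀ (b b' : β) (Φ : Ω → K), Fm k K G Ω ρ z d Φ →
      hm 0 (algebraMap k K (o b') / algebraMap k K (o b)) ∈
        GRG O ρ z (o b) (𝔔 b) (p b) (l b) (τ b) d Φ ∧
      ∀ f ∈ GRG O ρ z (o b') (𝔔 b') (p b') (l b') (τ b') d Φ, ∃ n : ℕ,
        hm 0 (algebraMap k K (o b') / algebraMap k K (o b)) ^ n * f ∈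
          GRG O ρ z (o b) (𝔔 b) (p b) (l b) (τ b) d Φ := by
    intro b b' Φ hΦ
    by_cases hbb : b' = b
    · subst hbb
      rw [div_self (hoK b'), hm_one]
      refine ⟨Subalgebra.one_mem _, fun f hf => ⟨0, ?_⟩⟩
      rw [pow_zero, one_mul]
      exact hf
    · exact hGLA2 k O K G Ω ρ m z (o b) (o b') (hoK b) (hoK b') (N b) (𝔔 b) (p b) (l b) (τ b)
        (N b') (𝔔 b') (p b') (l b') (τ b') d Φ hΦ (hp b) (hor b b' hbb)
  -- the atlas
  obtain ⟨r, T', _, C, H, hAt⟩ := hATLAS k Y hinjY P M₀ (algebraMap Y Y).fieldRange (S × β)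
    (fun a => res ι (GRG O ρ z (o a.2) (𝔔 a.2) (p a.2) (l a.2) (τ a.2) d (a.1 : Ω → K))) h
    (fun a => hGCHG k O M Y K G Ω ι ρ T m z hyp (o a.2) (dd a.2) (Tb a.2) (N a.2) (𝔔 a.2) (p a.2)
      (l a.2) (τ a.2) (ho a.2) (hL a.2) (hg a.2) d a.1 hd (hS a.1 a.1.2))
    hh0 (fun a => ⟨h a, rfl⟩) (fun _ _ x _ => ⟨x, rfl⟩)
    (by
      intro a a'
      rw [mem_res, Ph_hm, hquot]
      have h1 := (hGLA1 k O K G Ω ρ m z (o a.2) (N a.2) (𝔔 a.2) (p a.2) (l a.2) (τ a.2) (hp a.2) d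
        a.1 a'.1 (hS a.1 a.1.2) (hS a'.1 a'.1.2) _ ⟨inferInstance, rfl⟩).1
      have h2 := (hbase a.2 a'.2 a.1 (hS a.1 a.1.2)).1
      have h3 := Subalgebra.mul_mem _ h1 h2
      rw [hm_mul, add_zero] at h3
      exact h3)
    (by
      intro a a' f hf
      rw [mem_res] at hf
      obtain ⟨n, hn⟩ := (hGLA1 k O K G Ω ρ m z (o a'.2) (N a'.2) (𝔔 a'.2) (p a'.2) (l a'.2)
        (τ a'.2) (hp a'.2) d a.1 a'.1 (hS a.1 a.1.2) (hS a'.1 a'.1.2) _
        ⟨inferInstance, rfl⟩).2 _ hf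
      have h1 := (hGLA1 k O K G Ω ρ m z (o a.2) (N a.2) (𝔔 a.2) (p a.2) (l a.2) (τ a.2) (hp a.2) d
        a.1 a'.1 (hS a.1 a.1.2) (hS a'.1 a'.1.2) _ ⟨inferInstance, rfl⟩).1
      obtain ⟨h2, h3⟩ := hbase a.2 a'.2 a.1 (hS a.1 a.1.2)
      obtain ⟨n', hn'⟩ := h3 _ hn
      refine ⟨n + n', ?_⟩
      rw [mem_res, map_mul, map_pow, Ph_hm, hquot]
      have h4 : hm (0 : ℤ) ((∏ ω, ((a'.1 : Ω → K) ω / (a.1 : Ω → K) ω)) *
          (algebraMap k K (o a'.2) / algebraMap k K (o a.2))) =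
          hm 0 (∏ ω, ((a'.1 : Ω → K) ω / (a.1 : Ω → K) ω)) *
            hm 0 (algebraMap k K (o a'.2) / algebraMap k K (o a.2)) := by
        rw [hm_mul, add_zero]
      rw [h4]
      have h5 := Subalgebra.mul_mem _ (Subalgebra.mul_mem _ (Subalgebra.pow_mem _ h1 n')
        (Subalgebra.pow_mem _ h2 n)) hn'
      convert h5 using 1
      ring)
    (by
      intro V hV
      obtain ⟨Φ, hΦ, hΦV⟩ := hval V hV
      obtain ⟨b, hbV⟩ := exists_inv_mem o hspan V hV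
      exact ⟨(⟨Φ, hΦ⟩, b), fun x hx => hΦV (o b) (ho b) hbV (N b) (𝔔 b) (p b) (l b) (τ b) x hx⟩)
    (fun a x _ => (hGFRG k O M Y K G Ω ι ρ T m z hyp (o a.2) (N a.2) (𝔔 a.2) (p a.2) (l a.2)
      (τ a.2) (ho a.2) (hL a.2).ne (hp a.2) d a.1 hd (hS a.1 a.1.2)).1 x)
    (fun _ a => (hGFRG k O M Y K G Ω ι ρ T m z hyp (o a.2) (N a.2) (𝔔 a.2) (p a.2) (l a.2)
      (τ a.2) (ho a.2) (hL a.2).ne (hp a.2) d a.1 hd (hS a.1 a.1.2)).2)
    (fun hPP => ⟨d, hd, fun a => hGMOG k O M Y K G Ω ι ρ T m z hyp M₀ (hP hPP) (o a.2) (N a.2)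
      (𝔔 a.2) (p a.2) (l a.2) (τ a.2) (ho a.2) (hp a.2) d a.1 hd (hS a.1 a.1.2) (h a) (hιh a)⟩)
  obtain ⟨I, _, zz, J, hmod⟩ := hMODEL k Y hinjY P M₀ hM₀ (algebraMap Y Y).fieldRange
    (fun _ x _ => ⟨x, rfl⟩) r T' C H hAt
  exact hHASM k Y Y hinjY P M₀ I zz J hmod

end Pool.Agent.Y232.G6
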